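import Pool.Agent.MP_6b3e96_gt.H16.Dat

/-!
The check of the table.
-/

namespace Pool.Agent.MP_6b3e96_gt.H16

theorem runA : chkA = true := by decide +kernel

end Pool.Agent.MP_6b3e96_gt.H16
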