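import Pool.Agent.MP_6b3e96_gt.H16.Snd
import Pool.Agent.MP_6b3e96_gt.H16.RunA

/-!
Soundness of the assembly.
-/

noncomputable section

namespace Pool.Agent.MP_6b3e96_gt.H16

open Finset

theorem addAt_sound {p q : ℕ} {b bd o : ℤ} {G : (ℕ → ℝ) → ℝ} (hG : RepC b (p - q) G) (u : ℕ)
    (cols : List ℕ) (k : List ℕ → Bool) (Q : (ℕ → ℝ) → ℝ) (hQ : RepM bd o cols Q)
    (H : addAt p q u cols k = true) : ∃ t, k t = true ∧ t.length = cols.length ∧
      RepM (bd + b) o t fun x => Q x + G fun i => x (i + u) := by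
  have hb := hG.nonneg
  induction u generalizing cols k Q with
  | zero =>
    cases cols with
    | nil => exact absurd H Bool.false_ne_true
    | cons h t =>
      obtain ⟨G', Q', h1, h2, h3⟩ := hQ
      change Bool.rec (motive := fun _ => Bool) false (frc (h + p - q) fun h' => k (h' :: t))
        (Nat.ble q (h + p)) = true at H
      rcases brec H with ⟨-, H'⟩ | ⟨h4, H'⟩
      · exact absurd H' Bool.false_ne_true
      have h5 := Nat.le_of_ble_eq_true h4
      refine ⟨_, H', rfl, _, _, (h1.add hG).of_eq (by omega) fun _ => rfl,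
        h2.mono (by linarith) fun _ => rfl, fun x => ?_⟩
      simp only [h3, add_zero]; ring
  | succ u ih =>
    cases cols with
    | nil => exact absurd H Bool.false_ne_true
    | cons h t =>
      obtain ⟨G', Q', h1, h2, h3⟩ := hQ
      obtain ⟨t', h4, h5, h6⟩ := ih t (fun t' => k (h :: t')) Q' h2 H
      refine ⟨_, h4, by simp [h5], _, _, h1.mono (by linarith), h6, fun x => ?_⟩
      simp only [h3, sh, add_assoc]

/-- The local matrix. -/
def lamZ (a b : ℕ) : ℤ := ((lamB.getD a []).getD b 0 : ℕ) - 1048576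

/-- The multiplicity of an ordered pair. -/
def cf (u v : ℕ) : ℝ := if u ≤ v then (if v - u = 0 then 1 else 2) else 0

theorem cf_add (u v : ℕ) : cf u v + cf v u = 2 := by
  unfold cf
  split_ifs <;> first | omega | norm_num

theorem lamZ_le : ∀ a < 12, ∀ b < 12, |lamZ a b| ≤ 1048576 := by decide +kernel

theorem lamZ_symm : ∀ a < 12, ∀ b < 12, lamZ a b = lamZ b a := by decide +kernel

theorem wt_eq (u v : ℕ) : (wt u v : ℤ) = if u ≤ v then sN * sN * bZ ^ (v - u) else 0 := by
  change ((Bool.rec (motive := fun _ => ℕ) 0 (sN * sN * bN ^ (v - u)) (Nat.ble u v) : ℕ) : ℤ) = _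
  cases h : Nat.ble u v
  · rw [if_neg fun h' => Bool.false_ne_true (h.symm.trans (Nat.ble_eq_true_of_le h'))]; rfl
  · rw [if_pos (Nat.le_of_ble_eq_true h), ← bN_eq]; push_cast; rfl

theorem part_sound (j a u : ℕ) (ha : a < 12) (n : ℕ) (hn : n ≤ 12) :
    RepC (n * (1048576 * (sN * sN))) (partP j a u n - partN j u n) fun x =>
      ∑ b ∈ range n, cf u (ix j b) * (lamZ a b * (sN * sN)) * (x 0 * x (ix j b - u)) := by
  induction n with
  | zero => exact (RepC.zero (by simp)).of_eq rfl (by simp)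
  | succ n ih =>
    have h1 : partP j a u (n + 1) = partP j a u n + (lamB.getD a []).getD n 0 * wt u (ix j n) := rfl
    have h2 : partN j u (n + 1) = partN j u n + 1048576 * wt u (ix j n) := rfl
    have h3 : RepC (1048576 * (sN * sN)) (lamZ a n * wt u (ix j n)) fun x =>
        cf u (ix j n) * (lamZ a n * (sN * sN)) * (x 0 * x (ix j n - u)) := by
      rw [wt_eq, cf]
      split_ifs with h4 h5
      · refine ((RepC.single (lamZ a n * (sN * sN)) (ix j n - u)).mono ?_).of_eq (by ring)
          (by simp [h5])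
        rw [abs_mul, abs_of_nonneg (by positivity : (0 : ℤ) ≤ sN * sN)]
        gcongr; exact lamZ_le a ha n hn
      · refine ((RepC.single (lamZ a n * (sN * sN)) (ix j n - u)).mono ?_).of_eq (by ring)
          (by simp [h5])
        rw [abs_mul, abs_of_nonneg (by positivity : (0 : ℤ) ≤ sN * sN)]
        gcongr; exact lamZ_le a ha n hn
      · exact (RepC.zero (by positivity)).of_eq (by simp) (by simp)
    refine (((ih (by omega)).add h3).mono (by push_cast; linarith)).of_eq ?_ fun x => ?_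
    · rw [h1, h2, lamZ]; push_cast; ring
    · rw [sum_range_succ]

/-- The contribution of one local index. -/
def trm (j a : ℕ) (x : ℕ → ℝ) : ℝ :=
  ∑ b ∈ range 12, cf (ix j a) (ix j b) * (lamZ a b * (sN * sN)) * (x (ix j a) * x (ix j b))

theorem asm_sound (o n : ℕ) (k : List ℕ → Bool) (H : asm o n k = true) :
    ∃ t, k t = true ∧ t.length = 504 ∧ RepM (n * (12 * (1048576 * (sN * sN)))) o t
      fun x => ∑ m ∈ range n, trm (m / 12) (m % 12) x := by
  induction n generalizing k with
  | zero => exact ⟨_, H, List.length_replicate, (RepM.replicate o 504).mono (by simp) (by simp)⟩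
  | succ n ih =>
    obtain ⟨t, h1, h2, h3⟩ := ih _ H
    rw [frc_eq, frc_eq, frc_eq] at h1
    obtain ⟨t', h4, h5, h6⟩ := addAt_sound (part_sound (n / 12) (n % 12) _ (by omega) 12 le_rfl)
      _ t k _ h3 h1
    refine ⟨t', h4, h5.trans h2, h6.mono (by push_cast; linarith) fun x => ?_⟩
    rw [sum_range_succ, trm]
    congr 1
    refine sum_congr rfl fun b _ => ?_
    by_cases h : ix (n / 12) (n % 12) ≤ ix (n / 12) b
    · simp only [zero_add, Nat.sub_add_cancel h]
    · simp [cf, h]

theorem trm_sum (j : ℕ) (x : ℕ → ℝ) : ∑ a ∈ range 12, trm j a x =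
    sN * sN * ∑ a ∈ range 12, ∑ b ∈ range 12, lamZ a b * x (ix j a) * x (ix j b) := by
  have h : ∑ a ∈ range 12, trm j a x = ∑ a ∈ range 12, ∑ b ∈ range 12,
      cf (ix j b) (ix j a) * (lamZ a b * (sN * sN)) * (x (ix j a) * x (ix j b)) := by
    rw [sum_comm]
    refine sum_congr rfl fun a ha => sum_congr rfl fun b hb => ?_
    rw [lamZ_symm a (mem_range.1 ha) b (mem_range.1 hb), mul_comm (x _)]
  have h2 : ∑ a ∈ range 12, trm j a x + ∑ a ∈ range 12, trm j a x =
      2 * (sN * sN * ∑ a ∈ range 12, ∑ b ∈ range 12, lamZ a b * x (ix j a) * x (ix j b)) := by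
    nth_rw 2 [h]
    simp only [trm, ← sum_add_distrib, mul_sum]
    refine sum_congr rfl fun a _ => sum_congr rfl fun b _ => ?_
    linear_combination (lamZ a b * (sN * sN) * (x (ix j a) * x (ix j b))) * cf_add (ix j a) (ix j b)
  linarith

theorem sum_div (F : ℕ → ℕ → ℝ) (n : ℕ) :
    ∑ m ∈ range (12 * n), F (m / 12) (m % 12) = ∑ j ∈ range n, ∑ a ∈ range 12, F j a := by
  induction n with
  | zero => simp
  | succ n ih =>
    rw [mul_add_one, sum_range_add, ih, sum_range_succ _ n]
    congr 1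
    refine sum_congr rfl fun a ha => ?_
    have := mem_range.1 ha
    congr 1 <;> omega

theorem ex_eq (o : ℕ) (d : List (List (ℕ × ℕ) × List (ℕ × ℕ))) (k : List ℕ → Bool) :
    ex o d k = k (d.map (pk o)) := by
  induction d generalizing k with
  | nil => rfl
  | cons l d ih => exact ih fun t => k (pk o l :: t)

/-- The assembled form. -/
def bigQ (x : ℕ → ℝ) : ℝ :=
  ∑ j ∈ range 72, ∑ a ∈ range 12, ∑ b ∈ range 12, lamZ a b * x (ix j a) * x (ix j b)

theorem chk_sound {V : Type} [AddCommGroup V] [Module ℝ V] [FiniteDimensional ℝ V] {c N : ℕ}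
    (H : chk c N = true) (X : V → ℕ → ℝ) (hX : ∀ i, IsLinearMap ℝ fun v => X v i)
    (hm : ∀ i, (kT.map (chi c)).getD i false = true → ∀ v, X v i = 0) :
    Good N fun v => 0 ≤ bigQ (X v) := by
  obtain ⟨o, os, h1, h2⟩ := offs_spec 82
  have hA := runA
  rw [chkA, h2, ex_eq] at hA
  rw [chk, h2, ex_eq] at H
  obtain ⟨t, h3, h4, h5⟩ := asm_sound _ _ _ hA
  rw [← eq_of_beq h3] at H
  refine (ldl_sound h1 _ t N _ _ X hX hm (by positivity) (by rw [h4]; norm_num [sN, kZ, hZ]) h5
    H).mono fun v h => ?_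
  have h6 := sum_div (fun j a => trm j a (X v)) 72
  simp only [trm_sum, ← mul_sum] at h6
  have h7 : (0 : ℝ) ≤ dl - bt * t.length := by rw [h4]; norm_num [dl, bt]
  have h8 : (0 : ℝ) < sN * sN := by norm_num [sN]
  have h9 : 0 ≤ (sN : ℝ) * sN * bigQ (X v) :=
    (mul_nonneg h7 (nsq_nonneg _ _)).trans (h.trans h6.le)
  exact nonneg_of_mul_nonneg_right h9 h8

end Pool.Agent.MP_6b3e96_gt.H16
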