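import Pool.Agent.MP_6b3e96_gt.H16.Dat

/-!
The checks for four characters.
-/

namespace Pool.Agent.MP_6b3e96_gt.H16

theorem run8 : chk 8 11 = true := by decide +kernel

theorem run9 : chk 9 9 = true := by decide +kernel

theorem run10 : chk 10 9 = true := by decide +kernel

theorem run11 : chk 11 5 = true := by decide +kernel

end Pool.Agent.MP_6b3e96_gt.H16
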