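import Pool.Agent.MP_6b3e96_gt.H77.Spec
import Pool.Agent.MP_6b3e96_gt.H16.Asm
import Pool.Agent.MP_6b3e96_gt.H16.Run0
import Pool.Agent.MP_6b3e96_gt.H16.Run1
import Pool.Agent.MP_6b3e96_gt.H16.Run2
import Pool.Agent.MP_6b3e96_gt.H16.Run3

/-!
The assembled matrix has at most 138 negative directions.
-/

noncomputable section

namespace Pool.Agent.MP_6b3e96_gt.H16

open Finset Pool.Agent.MP_6b3e96_gt.H77

/-- The characters with integer values. -/
def chZ (c s : Fin 16) : ℤ := if chi c s then -1 else 1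

theorem chZ_xor : ∀ c s t : Fin 16, chZ c (s ^^^ t) = chZ c s * chZ c t := by decide +kernel

theorem chZ_zero : ∀ c : Fin 16, chZ c 0 = 1 := by decide +kernel

theorem chZ_orth : ∀ s t : Fin 16, ∑ c, chZ c s * chZ c t = if s = t then 16 else 0 := by
  decide +kernel

theorem xor_xor : ∀ s t : Fin 16, (s ^^^ t) ^^^ t = s := by decide +kernel

/-- The square attached to an unknown. -/
def rj (u : ℕ) : Fin 72 := Fin.ofNat 72 (repT.getD (u / 3) 0 / 4)

/-- The local index attached to an unknown. -/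
def ra (u : ℕ) : Fin 4 × Fin 3 := (Fin.ofNat 4 (repT.getD (u / 3) 0), Fin.ofNat 3 (2 - u % 3))

theorem rep_spec : ∀ (j : Fin 72) (i : Fin 4) (m : Fin 3), ra (ix j (3 * i + m)) = (i, m) ∧
    (rj (ix j (3 * i + m)) = j ∨ rj (ix j (3 * i + m)) = nb j i ∧ H77.sg j i = 0) := by
  decide +kernel

theorem kT_spec : kT.length = 504 ∧ ∀ u < 504, kT.getD u 0 = H77.sg (rj u) (ra u).1 ∧
    (H77.sg (rj u) (ra u).1 = 0 ∨ nb (rj u) (ra u).1 = rj u) := by decide +kernel

theorem lamZ_eq : ∀ (i i' : Fin 4) (m m' : Fin 3),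
    lamZ (3 * i + m) (3 * i' + m') = lamM (i, m) (i', m') := by decide +kernel

theorem sum12 (F : ℕ → ℝ) : ∑ a ∈ range 12, F a = ∑ p : Fin 4 × Fin 3, F (3 * p.1 + p.2) := by
  simp [sum_range_succ, Fintype.sum_prod_type, Fin.sum_univ_succ, add_assoc]

theorem parseval (u v : Fin 16 → ℝ) :
    ∑ c, (∑ s, chZ c s * u s) * ∑ s, chZ c s * v s = 16 * ∑ s, u s * v s := by
  have h : ∀ s t : Fin 16, ∑ c, (chZ c s : ℝ) * chZ c t = if s = t then 16 else 0 := by
    intro s t
    have := congrArg (Int.cast : ℤ → ℝ) (chZ_orth s t)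
    push_cast at this
    exact this
  calc _ = ∑ s, ∑ t, (∑ c, (chZ c s : ℝ) * chZ c t) * (u s * v t) := by
        simp only [sum_mul_sum]
        simp only [sum_mul]
        rw [sum_comm]
        refine sum_congr rfl fun s _ => ?_
        rw [sum_comm]
        exact sum_congr rfl fun t _ => sum_congr rfl fun c _ => by ring
    _ = _ := by simp [h, mul_sum]

/-- The numbers of negative directions. -/
def ng : Fin 16 → ℕ := ![16, 11, 11, 9, 11, 9, 9, 5, 11, 9, 9, 5, 9, 5, 5, 4]

theorem runs (c : Fin 16) : chk c (ng c) = true := by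
  fin_cases c
  exacts [run0, run1, run2, run3, run4, run5, run6, run7, run8, run9, run10, run11, run12, run13,
    run14, run15]

theorem Good.all {V ι : Type} [AddCommGroup V] [Module ℝ V] {N : ι → ℕ} {P : ι → V → Prop}
    (h : ∀ i, Good (N i) (P i)) (s : Finset ι) : Good (∑ i ∈ s, N i) fun v => ∀ i ∈ s, P i v := by
  classical
  induction s using Finset.induction_on with
  | empty => exact .of_forall _ (by simp)
  | insert a s ha ih =>
    rw [sum_insert ha]
    exact ((h a).and ih).mono fun v hv => by simpa using hv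

theorem alg : AlgStmt := by
  intro y hy
  let z : Fin 16 → (Fin 139 → ℝ) → Fin 72 → Fin 4 × Fin 3 → ℝ :=
    fun c v j a => ∑ s, chZ c s * y v (s, j) a
  have hz : ∀ c v j i m, z c v (nb j i) (i, m) = chZ c (H77.sg j i) * z c v j (i, m) := by
    intro c v j i m
    simp only [z, mul_sum]
    refine (sum_bijective (fun s => s ^^^ H77.sg j i) (Function.Involutive.bijective
      fun s => xor_xor s _) (by simp) fun s _ => ?_).symm
    rw [← hy v (s, j) i m, chZ_xor]
    push_cast
    simp only [nbr]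
    ring
  have h1 : ∀ c : Fin 16, Good (ng c) fun v => 0 ≤ bigQ fun u => z c v (rj u) (ra u) := by
    intro c
    refine chk_sound (runs c) (fun v u => z c v (rj u) (ra u)) (fun u => ⟨fun v w => ?_,
      fun t v => ?_⟩) fun u hu v => ?_
    · simp [z, mul_add, sum_add_distrib]
    · simp only [z, map_smul, Pi.smul_apply, smul_eq_mul, mul_sum]
      exact sum_congr rfl fun s _ => by ring
    · have h2 : u < 504 := by
        by_contra h
        rw [List.getD_eq_default _ _ (by rw [List.length_map, kT_spec.1]; omega)] at hu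
        exact Bool.false_ne_true hu
      obtain ⟨h3, h4⟩ := kT_spec.2 u h2
      have h5 : chi c (kT.getD u 0) = true := by
        rw [← hu, List.getD_eq_getElem _ _ (kT_spec.1 ▸ h2),
          List.getD_eq_getElem _ _ (by rw [List.length_map, kT_spec.1]; exact h2), List.getElem_map]
      have h6 : chZ c (H77.sg (rj u) (ra u).1) = -1 := by rw [chZ, ← h3, if_pos h5]
      rcases h4 with h4 | h4
      · rw [h4, chZ_zero] at h6
        omega
      · have h7 := hz c v (rj u) (ra u).1 (ra u).2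
        rw [h4, h6] at h7
        push_cast at h7
        change z c v (rj u) ((ra u).1, (ra u).2) = 0
        linarith
  obtain ⟨U, -, h2, h3⟩ := Good.all h1 univ ⊤
  have h4 : ∑ c, ng c = 138 := by decide
  rw [h4, finrank_top, Module.finrank_fin_fun] at h2
  obtain ⟨v, hv, hv0⟩ := U.exists_mem_ne_zero_of_ne_bot (by
    rintro rfl
    rw [finrank_bot] at h2
    omega)
  refine ⟨v, hv0, ?_⟩
  have h5 : ∀ c, bigQ (fun u => z c v (rj u) (ra u)) =
      ∑ j, ∑ a, ∑ b, (lamM a b : ℝ) * (z c v j a * z c v j b) := by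
    intro c
    have h6 : ∀ (j : Fin 72) (a : Fin 4 × Fin 3),
        z c v (rj (ix j (3 * a.1 + a.2))) (ra (ix j (3 * a.1 + a.2))) = z c v j a := by
      rintro j ⟨i, m⟩
      obtain ⟨h7, h8 | ⟨h8, h9⟩⟩ := rep_spec j i m
      · rw [h7, h8]
      · rw [h7, h8, hz, h9, chZ_zero]; simp
    rw [bigQ, sum_range]
    refine sum_congr rfl fun j _ => ?_
    simp only [sum12, h6, lamZ_eq, mul_assoc]
  have h6 : 0 ≤ ∑ c, ∑ j, ∑ a, ∑ b, (lamM a b : ℝ) * (z c v j a * z c v j b) :=
    sum_nonneg fun c _ => h5 c ▸ h3 v hv c (mem_univ _)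
  have h7 : ∑ c, ∑ j, ∑ a, ∑ b, (lamM a b : ℝ) * (z c v j a * z c v j b) =
      16 * ∑ k, ∑ a, ∑ b, (lamM a b : ℝ) * y v k a * y v k b := by
    rw [Fintype.sum_prod_type_right, mul_sum, sum_comm]
    refine sum_congr rfl fun j _ => ?_
    rw [sum_comm, sum_comm (γ := Fin 16), mul_sum]
    refine sum_congr rfl fun a _ => ?_
    rw [sum_comm, sum_comm (γ := Fin 16), mul_sum]
    refine sum_congr rfl fun b _ => ?_
    rw [← mul_sum, parseval]
    simp only [mul_sum]
    exact sum_congr rfl fun s _ => by ring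
  linarith

end Pool.Agent.MP_6b3e96_gt.H16
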