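import Pool.Agent.MP_6b3e96_gt.H77.Basic

/-!
A checker for the number of negative directions of a banded integer quadratic form.
Columns are packed into natural numbers with shifted digits.
-/

noncomputable section

namespace Pool.Agent.MP_6b3e96_gt.H16

/-- Evaluate a number before going on. -/
def frc (x : ℕ) (k : ℕ → Bool) : Bool := Nat.rec false (fun n _ => k n) (Nat.succ x)

/-- The packed zero vectors. -/
def offs (n : ℕ) : (ℕ → List ℕ → Bool) → Bool :=
  Nat.rec (fun k => k (nat_lit 162259276829213425119972516460967) [])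
    (fun _ ih k => ih fun o os => frc (Nat.add (nat_lit 162259276829213425119972516460967)
      (Nat.mul (nat_lit 324518553658426850239945032921935) o)) fun o' => k o' (o :: os)) n

/-- Continuations. -/
abbrev K := Bool → ℕ → List ℕ → Bool

/-- Updates of a column. -/
abbrev U := ℕ → ℕ → ℕ → K → Bool → List ℕ → Bool

/-- Guarded subtraction. -/
def uS (h x a : ℕ) (k : K) (σ : Bool) (t : List ℕ) : Bool :=
  Bool.rec false (k σ a (Nat.sub h x :: t)) (Nat.ble x h)

/-- Addition. -/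
def uA (h x a : ℕ) (k : K) (σ : Bool) (t : List ℕ) : Bool := k σ a (Nat.add h x :: t)

/-- After a positive multiplier. -/
def cP (u v : U) (h m l : ℕ) (k : K) (σ : Bool) (a : ℕ) (t : List ℕ) : Bool :=
  Bool.rec
    (u h (Nat.mul m (Nat.add (Nat.mul (nat_lit 324518553658426850239945032921935) a) l))
      (Nat.add (Nat.mul (nat_lit 324518553658426850239945032921935) a) l) k σ t)
    (v h (Nat.mul m (Nat.sub (Nat.mul (nat_lit 324518553658426850239945032921935) a) l))
      (Nat.sub (Nat.mul (nat_lit 324518553658426850239945032921935) a) l) k σ t) σ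

/-- After a negative multiplier. -/
def cN (u v : U) (h m l : ℕ) (k : K) (σ : Bool) (a : ℕ) (t : List ℕ) : Bool :=
  Bool.rec
    (v h (Nat.mul m (Nat.sub (Nat.mul (nat_lit 324518553658426850239945032921935) a) l))
      (Nat.sub (Nat.mul (nat_lit 324518553658426850239945032921935) a) l) k σ t)
    (u h (Nat.mul m (Nat.add (Nat.mul (nat_lit 324518553658426850239945032921935) a) l))
      (Nat.add (Nat.mul (nat_lit 324518553658426850239945032921935) a) l) k σ t) σ

/-- After a zero multiplier. -/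
def c0 (h : ℕ) (k : K) (σ : Bool) (a : ℕ) (t : List ℕ) : Bool :=
  k σ (Nat.mul (nat_lit 324518553658426850239945032921935) a) (h :: t)

/-- The three cases for the multiplier. -/
def r2 (u v : U) (D : ℕ) (ih : Bool → K → Bool) (h : ℕ) (s : Bool) (k : K) (d l : ℕ) : Bool :=
  Bool.rec (Bool.rec false
      (Bool.rec (ih false (cP u v h (Nat.mul D l) l k)) (ih true (cN u v h (Nat.mul D l) l k))
        (Nat.ble d (nat_lit 162259276829213425119972516460967))) (Nat.ble l (nat_lit 92800005440)))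
    (ih s (c0 h k)) (Nat.beq l (nat_lit 0))

/-- Elimination of one column. -/
def go (u v : U) (D e e2 : ℕ) (os : List ℕ) : List ℕ → ℕ → Bool → K → Bool :=
  List.rec (fun _ _ _ _ => false)
    (fun o _ ih cols c s k => Bool.rec (List.rec false (fun h t _ =>
      r2 u v D (ih t (Nat.div c (nat_lit 324518553658426850239945032921935))) h s k
        (Nat.mod c (nat_lit 324518553658426850239945032921935))
        (Nat.div (Nat.add (Nat.add (Nat.sub (Nat.mod c (nat_lit 324518553658426850239945032921935))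
          (nat_lit 162259276829213425119972516460967)) (Nat.sub (nat_lit 162259276829213425119972516460967)
            (Nat.mod c (nat_lit 324518553658426850239945032921935)))) e2) e)) cols)
      (k s (nat_lit 0) cols) (Nat.beq c o)) os

/-- Elimination with a given pivot. -/
def piv (u v : U) (os t : List ℕ) (c : ℕ) (k : List ℕ → Bool) (D : ℕ) : Bool :=
  Bool.rec false (Bool.rec false
    (frc (Nat.mul D (nat_lit 290000017)) fun e => frc (Nat.div e 2) fun e2 =>
      go u v D e e2 os t c false fun _ _ t' => k t') (Nat.ble 1 D)) (Nat.ble D (nat_lit 36000000))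

/-- The elimination; `N` is the number of negative pivots that are allowed. -/
def ldl (os : List ℕ) (mask : List Bool) : List ℕ → ℕ → Bool :=
  List.rec (fun cols _ => cols.isEmpty)
    (fun m _ ih cols N => List.rec false (fun c t _ => Bool.rec
      (frc (Nat.mod c (nat_lit 324518553658426850239945032921935)) fun d => Bool.rec
        (Nat.rec false (fun N' _ =>
          frc (Nat.add (Nat.div (Nat.sub (nat_lit 162259276829216116320288036470215) d)
            (nat_lit 84100009860000289)) 1)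
            (piv uA uS os t (Nat.div c (nat_lit 324518553658426850239945032921935)) fun t' => ih t' N')) N)
        (frc (Nat.div (Nat.sub d (nat_lit 162259276829216116320288036470215)) (nat_lit 84100009860000289))
          (piv uS uA os t (Nat.div c (nat_lit 324518553658426850239945032921935)) fun t' => ih t' N))
        (Nat.ble (nat_lit 162259276829216116320288036470215) d))
      (ih t N) m) cols) mask

/-- Add `p - q` to the entry `u`. -/
def addAt (p q u : ℕ) : List ℕ → (List ℕ → Bool) → Bool :=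
  Nat.rec (fun cols k => List.rec false (fun h t _ =>
      Bool.rec false (frc (Nat.sub (Nat.add h p) q) fun h' => k (h' :: t))
        (Nat.ble q (Nat.add h p))) cols)
    (fun _ ih cols k => List.rec false (fun h t _ => ih t fun t' => k (h :: t')) cols) u

/-- The numbers of the edges. -/
def eT : List (List ℕ) :=
  [[0, 4, 2, 3], [5, 4, 13, 12], [1, 9, 2, 8], [6, 11, 10, 3], [16, 23, 13, 31], [30, 11, 29, 12],
  [19, 9, 21, 28], [17, 27, 10, 8], [6, 14, 15, 7], [22, 23, 21, 34], [53, 46, 29, 31], [30, 49,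
  54, 42], [52, 27, 47, 28], [17, 33, 15, 20], [25, 14, 32, 18], [60, 46, 47, 34], [53, 79, 54,
  71], [50, 49, 63, 51], [52, 78, 74, 72], [59, 33, 56, 43], [25, 38, 39, 26], [44, 55, 32, 41],
  [60, 86, 74, 64], [103, 79, 96, 94], [50, 38, 61, 48], [65, 88, 63, 69], [92, 78, 101, 93], [59,
  83, 81, 82], [80, 55, 56, 66], [44, 62, 39, 45], [24, 36, 35, 26], [111, 86, 110, 91], [103,
  117, 118, 129], [112, 88, 96, 90], [65, 84, 61, 68], [40, 36, 57, 48], [92, 83, 106, 105], [114,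
  116, 101, 115], [80, 102, 81, 100], [95, 104, 99, 82], [87, 62, 85, 70], [37, 58, 35, 45], [111,
  117, 135, 136], [134, 116, 110, 123], [112, 137, 118, 138], [145, 143, 144, 129], [107, 84, 85,
  89], [73, 77, 57, 68], [114, 127, 106, 130], [125, 104, 128, 105], [122, 102, 126, 119], [98,
  113, 99, 100], [87, 109, 108, 97], [67, 58, 75, 70], [134, 155, 135, 154], [153, 143, 156, 136],
  [148, 137, 157, 159], [150, 158, 144, 138], [107, 132, 108, 121], [76, 77, 75, 89], [140, 127,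
  126, 139], [142, 141, 128, 130], [122, 109, 133, 120], [124, 113, 131, 119], [161, 155, 157,
  164], [162, 163, 156, 154], [148, 132, 151, 147], [166, 158, 165, 159], [140, 152, 133, 149],
  [146, 141, 131, 139], [161, 152, 151, 160], [167, 163, 165, 164]]

/-- A side of a square for each edge. -/
def repT : List ℕ :=
  [0, 8, 2, 3, 1, 4, 12, 35, 11, 9, 14, 13, 7, 6, 33, 34, 16, 28, 59, 24, 55, 26, 36, 17, 120, 56,
  83, 29, 27, 22, 20, 19, 58, 53, 39, 122, 121, 164, 81, 82, 140, 87, 47, 79, 84, 119, 41, 50, 99,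
  45, 68, 71, 48, 40, 46, 85, 78, 142, 165, 76, 60, 98, 117, 70, 91, 100, 115, 212, 139, 103, 163,
  67, 75, 188, 74, 214, 236, 189, 73, 65, 112, 110, 111, 109, 137, 162, 89, 160, 101, 187, 135,
  127, 104, 107, 95, 156, 94, 211, 204, 158, 155, 106, 153, 92, 157, 147, 146, 184, 210, 209, 126,
  124, 132, 205, 148, 151, 149, 129, 130, 203, 251, 235, 200, 175, 252, 196, 202, 193, 198, 131,
  195, 254, 233, 250, 172, 170, 171, 177, 179, 243, 240, 245, 244, 181, 182, 180, 276, 267, 224,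
  275, 228, 266, 273, 220, 219, 217, 222, 226, 229, 227, 283, 256, 260, 261, 259, 270, 268, 284]

/-- The local matrix, shifted. -/
def lamB : List (List ℕ) :=
  [[1338659, 1046553, 1280107, 892558, 1178359, 917613, 891282, 1178832, 918485, 1045070, 1048384,
  1088820], [1046553, 1416170, 1048554, 1178359, 918148, 1189095, 917705, 1179541, 908227,
  1048383, 1062121, 1048605], [1280107, 1048554, 1831367, 917613, 1189095, 811722, 917897,
  1188933, 811350, 1088696, 1048615, 1110703], [892558, 1178359, 917613, 1338659, 1046553,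
  1280107, 1045070, 1048384, 1088820, 891282, 1178832, 918485], [1178359, 918148, 1189095,
  1046553, 1416170, 1048554, 1048383, 1062121, 1048605, 917705, 1179541, 908227], [917613,
  1189095, 811722, 1280107, 1048554, 1831367, 1088696, 1048615, 1110703, 917897, 1188933, 811350],
  [891282, 917705, 917897, 1045070, 1048383, 1088696, 1332243, 1047604, 1282894, 890240, 917548,
  918483], [1178832, 1179541, 1188933, 1048384, 1062121, 1048615, 1047604, 1413177, 1048475,
  917548, 917436, 908349], [918485, 908227, 811350, 1088820, 1048605, 1110703, 1282894, 1048475,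
  1827912, 918483, 908349, 810925], [1045070, 1048383, 1088696, 891282, 917705, 917897, 890240,
  917548, 918483, 1332243, 1047604, 1282894], [1048384, 1062121, 1048615, 1178832, 1179541,
  1188933, 917548, 917436, 908349, 1047604, 1413177, 1048475], [1088820, 1048605, 1110703, 918485,
  908227, 811350, 918483, 908349, 810925, 1282894, 1048475, 1827912]]

/-- The sign change attached to each unknown. -/
def kT : List ℕ :=
  [8, 8, 8, 8, 8, 8, 0, 0, 0, 0, 0, 0, 0, 0, 0, 4, 4, 4, 0, 0, 0, 8, 8, 8, 0, 0, 0, 0, 0, 0, 0, 0,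
  0, 0, 0, 0, 0, 0, 0, 0, 0, 0, 0, 0, 0, 0, 0, 0, 4, 4, 4, 0, 0, 0, 8, 8, 8, 2, 2, 2, 8, 8, 8, 0,
  0, 0, 2, 2, 2, 0, 0, 0, 8, 8, 8, 0, 0, 0, 0, 0, 0, 0, 0, 0, 0, 0, 0, 0, 0, 0, 0, 0, 0, 0, 0, 0,
  0, 0, 0, 0, 0, 0, 0, 0, 0, 0, 0, 0, 0, 0, 0, 8, 8, 8, 0, 0, 0, 0, 0, 0, 4, 4, 4, 8, 8, 8, 4, 4,
  4, 8, 8, 8, 0, 0, 0, 0, 0, 0, 0, 0, 0, 0, 0, 0, 0, 0, 0, 0, 0, 0, 0, 0, 0, 4, 4, 4, 0, 0, 0, 0,
  0, 0, 0, 0, 0, 0, 0, 0, 0, 0, 0, 0, 0, 0, 0, 0, 0, 0, 0, 0, 0, 0, 0, 0, 0, 0, 0, 0, 0, 0, 0, 0,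
  2, 2, 2, 0, 0, 0, 8, 8, 8, 1, 1, 1, 0, 0, 0, 4, 4, 4, 0, 0, 0, 4, 4, 4, 2, 2, 2, 4, 4, 4, 0, 0,
  0, 0, 0, 0, 1, 1, 1, 0, 0, 0, 0, 0, 0, 0, 0, 0, 0, 0, 0, 0, 0, 0, 0, 0, 0, 0, 0, 0, 0, 0, 0, 0,
  0, 0, 0, 0, 0, 0, 0, 0, 0, 0, 0, 0, 0, 0, 4, 4, 4, 2, 2, 2, 0, 0, 0, 2, 2, 2, 4, 4, 4, 8, 8, 8,
  0, 0, 0, 1, 1, 1, 8, 8, 8, 0, 0, 0, 0, 0, 0, 0, 0, 0, 0, 0, 0, 0, 0, 0, 0, 0, 0, 0, 0, 0, 0, 0,
  0, 0, 0, 0, 0, 0, 0, 0, 0, 0, 0, 0, 0, 0, 0, 0, 0, 0, 0, 0, 0, 0, 0, 0, 0, 2, 2, 2, 0, 0, 0, 0,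
  0, 0, 0, 0, 0, 0, 0, 0, 1, 1, 1, 1, 1, 1, 0, 0, 0, 2, 2, 2, 1, 1, 1, 2, 2, 2, 0, 0, 0, 0, 0, 0,
  0, 0, 0, 0, 0, 0, 0, 0, 0, 0, 0, 0, 0, 0, 0, 0, 0, 0, 0, 0, 0, 0, 0, 0, 0, 0, 0, 0, 0, 0, 0, 0,
  0, 0, 0, 0, 0, 0, 0, 0, 0, 0, 2, 2, 2, 0, 0, 0, 0, 0, 0, 4, 4, 4, 1, 1, 1, 1, 1, 1, 0, 0, 0, 1,
  1, 1, 4, 4, 4, 0, 0, 0, 0, 0, 0, 2, 2, 2, 0, 0, 0, 0, 0, 0, 0, 0, 0, 0, 0, 0, 0, 0, 0, 0, 0, 0,
  1, 1, 1, 0, 0, 0, 2, 2, 2, 0, 0, 0, 0, 0, 0, 0, 0, 0, 1, 1, 1, 1, 1, 1]

/-- The unknown attached to a square and a local index. -/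
def ix (j a : ℕ) : ℕ := 3 * ((eT.getD j []).getD (a / 3) 0) + (2 - a % 3)

/-- The weight of the digit `v - u`. -/
def wt (u v : ℕ) : ℕ :=
  Bool.rec 0 (Nat.mul (nat_lit 84100009860000289)
    (Nat.pow (nat_lit 324518553658426850239945032921935) (Nat.sub v u))) (Nat.ble u v)

/-- The positive part of a column that comes from one square. -/
def partP (j a u n : ℕ) : ℕ :=
  Nat.rec 0 (fun b ih => Nat.add ih (Nat.mul ((lamB.getD a []).getD b 0) (wt u (ix j b)))) n

/-- The negative part of a column that comes from one square. -/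
def partN (j u n : ℕ) : ℕ :=
  Nat.rec 0 (fun b ih => Nat.add ih (Nat.mul (nat_lit 1048576) (wt u (ix j b)))) n

/-- Assembly of the first `n` parts. -/
def asm (o n : ℕ) : (List ℕ → Bool) → Bool :=
  Nat.rec (fun k => k (List.replicate 504 o))
    (fun n ih k => ih fun cols => frc (n / 12) fun j => frc (n % 12) fun a =>
      frc (ix j a) fun u => addAt (partP j a u 12) (partN j u 12) u cols k) n

/-- Characters of the group of sign changes. -/
def chi (c s : ℕ) : Bool :=
  xor (xor ((c &&& s).testBit 0) ((c &&& s).testBit 1))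
    (xor ((c &&& s).testBit 2) ((c &&& s).testBit 3))

end Pool.Agent.MP_6b3e96_gt.H16
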