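import Mathlib

/-!
Packed integer vectors and packed quadratic forms.
-/

noncomputable section

namespace Pool.Agent.MP_6b3e96_gt.H16

open Finset

/-- The base. -/
def bZ : ℤ := 324518553658426850239945032921935
/-- Half of the base. -/
def hZ : ℤ := 162259276829213425119972516460967

theorem bh : bZ = 2 * hZ + 1 := by norm_num [bZ, hZ]

theorem hZ_pos : 0 < hZ := by norm_num [hZ]

/-- The shift. -/
def sh (x : ℕ → ℝ) : ℕ → ℝ := fun i => x (i + 1)

/-- The integer `c` has digits bounded by `bd`, and `f` is the linear form with these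
coefficients. -/
inductive Rep (bd : ℤ) : ℤ → ((ℕ → ℝ) → ℝ) → Prop
  | nil : Rep bd 0 fun _ => 0
  | cons (a c : ℤ) (f : (ℕ → ℝ) → ℝ) : |a| ≤ bd → Rep bd c f →
      Rep bd (a + bZ * c) fun x => a * x 0 + f (sh x)

theorem Rep.of_eq {b c c' : ℤ} {f f' : (ℕ → ℝ) → ℝ} (h : Rep b c f) (hc : c = c')
    (hf : ∀ x, f x = f' x) : Rep b c' f' := by
  obtain rfl : f = f' := funext hf
  exact hc ▸ h

theorem Rep.mono {b b' c : ℤ} {f : (ℕ → ℝ) → ℝ} (h : Rep b c f) (hb : b ≤ b') : Rep b' c f := by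
  induction h with
  | nil => exact .nil
  | cons a c f ha _ ih => exact .cons a c f (ha.trans hb) ih

theorem Rep.dest {b c : ℤ} {f : (ℕ → ℝ) → ℝ} (h : Rep b c f) (hb : 0 ≤ b) :
    ∃ a c' f', |a| ≤ b ∧ Rep b c' f' ∧ c = a + bZ * c' ∧ ∀ x, f x = a * x 0 + f' (sh x) := by
  cases h with
  | nil => exact ⟨0, 0, _, by simpa, .nil, by simp, by simp⟩
  | cons a c f ha h => exact ⟨a, c, f, ha, h, rfl, fun _ => rfl⟩

theorem Rep.add {b b' c c' : ℤ} {f f' : (ℕ → ℝ) → ℝ} (h : Rep b c f) (h' : Rep b' c' f')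
    (hb : 0 ≤ b) (hb' : 0 ≤ b') : Rep (b + b') (c + c') fun x => f x + f' x := by
  induction h generalizing c' f' with
  | nil => exact (h'.mono (by omega)).of_eq (by simp) (by simp)
  | cons a c f ha _ ih =>
    obtain ⟨a', c'', f'', ha', hr, rfl, hf⟩ := h'.dest hb'
    refine (Rep.cons (a + a') _ _ ((abs_add_le _ _).trans (add_le_add ha ha')) (ih hr)).of_eq
      (by ring) fun x => ?_
    rw [hf]; push_cast; ring

theorem Rep.smul {b c : ℤ} {f : (ℕ → ℝ) → ℝ} (h : Rep b c f) (m : ℤ) :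
    Rep (|m| * b) (m * c) fun x => m * f x := by
  induction h with
  | nil => exact Rep.nil.of_eq (by simp) (by simp)
  | cons a c f ha _ ih =>
    refine (Rep.cons (m * a) _ _ ?_ ih).of_eq (by ring) fun x => ?_
    · rw [abs_mul]; exact mul_le_mul_of_nonneg_left ha (abs_nonneg _)
    · push_cast; ring

theorem digit_eq {a a' c c' : ℤ} (h : a + bZ * c = a' + bZ * c') (ha : |a| ≤ hZ) (ha' : |a'| ≤ hZ) :
    a = a' ∧ c = c' := by
  have hb := bh
  have hp := hZ_pos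
  rw [abs_le] at ha ha'
  have : c = c' := by
    rcases lt_trichotomy c c' with h1 | h1 | h1
    · nlinarith
    · exact h1
    · nlinarith
  subst this
  exact ⟨by linarith, rfl⟩

theorem Rep.zero {b c : ℤ} {f : (ℕ → ℝ) → ℝ} (h : Rep b c f) (hc : c = 0) (hb : b ≤ hZ) (x : ℕ → ℝ) :
    f x = 0 := by
  induction h generalizing x with
  | nil => rfl
  | cons a c f ha _ ih =>
    obtain ⟨h1, h2⟩ := digit_eq (a' := 0) (c' := 0) (by simpa using hc) (ha.trans hb)
      (by simpa using hZ_pos.le)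
    simp [h1, ih h2]

theorem Rep.lin {V : Type} [AddCommGroup V] [Module ℝ V] {b c : ℤ} {f : (ℕ → ℝ) → ℝ}
    (h : Rep b c f) (X : V → ℕ → ℝ) (hX : ∀ i, IsLinearMap ℝ fun v => X v i) :
    IsLinearMap ℝ fun v => f (X v) := by
  induction h generalizing X with
  | nil => exact ⟨by simp, by simp⟩
  | cons a c f _ _ ih =>
    have h1 := ih (fun v => sh (X v)) fun i => hX (i + 1)
    refine ⟨fun v w => ?_, fun t v => ?_⟩
    · simp only [(hX 0).1, h1.1]; ring
    · simp only [(hX 0).2, h1.2, smul_eq_mul]; ring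

theorem Rep.single (w : ℤ) (d : ℕ) : Rep |w| (w * bZ ^ d) fun x => w * x d := by
  induction d with
  | zero => exact (Rep.cons w 0 _ le_rfl .nil).of_eq (by simp) (by simp)
  | succ d ih => exact (Rep.cons 0 _ _ (by simp) ih).of_eq (by ring) (by simp [sh])

/-- A packed column of a quadratic form. -/
def RepC (bd z : ℤ) (G : (ℕ → ℝ) → ℝ) : Prop :=
  ∃ a c f, z = a + bZ * c ∧ |a| ≤ bd ∧ Rep bd c f ∧ ∀ x, G x = a * x 0 ^ 2 + 2 * x 0 * f (sh x)

theorem RepC.of_eq {b c c' : ℤ} {f f' : (ℕ → ℝ) → ℝ} (h : RepC b c f) (hc : c = c')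
    (hf : ∀ x, f x = f' x) : RepC b c' f' := by
  obtain rfl : f = f' := funext hf
  exact hc ▸ h

theorem RepC.mono {b b' c : ℤ} {f : (ℕ → ℝ) → ℝ} (h : RepC b c f) (hb : b ≤ b') : RepC b' c f := by
  obtain ⟨a, c, f, h1, h2, h3, h4⟩ := h
  exact ⟨a, c, f, h1, h2.trans hb, h3.mono hb, h4⟩

theorem RepC.nonneg {b c : ℤ} {f : (ℕ → ℝ) → ℝ} (h : RepC b c f) : 0 ≤ b := by
  obtain ⟨a, c, f, _, h2, _⟩ := h
  exact (abs_nonneg _).trans h2

theorem RepC.add {b b' c c' : ℤ} {f f' : (ℕ → ℝ) → ℝ} (h : RepC b c f) (h' : RepC b' c' f') :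
    RepC (b + b') (c + c') fun x => f x + f' x := by
  have hb := h.nonneg
  have hb' := h'.nonneg
  obtain ⟨a, c, f, rfl, h2, h3, h4⟩ := h
  obtain ⟨a', c', f', rfl, h2', h3', h4'⟩ := h'
  refine ⟨a + a', c + c', _, by ring, (abs_add_le _ _).trans (add_le_add h2 h2'),
    h3.add h3' hb hb', fun x => ?_⟩
  simp only [h4, h4']; push_cast; ring

theorem RepC.zero {b : ℤ} (hb : 0 ≤ b) : RepC b 0 fun _ => 0 :=
  ⟨0, 0, _, by simp, by simpa, .nil, by simp⟩

theorem RepC.single (w : ℤ) (d : ℕ) :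
    RepC |w| (w * bZ ^ d) fun x => (if d = 0 then 1 else 2) * w * (x 0 * x d) := by
  cases d with
  | zero => exact ⟨w, 0, _, by simp, le_rfl, .nil, fun x => by simp [sq]⟩
  | succ d => exact ⟨0, _, _, by ring, by simp, .single w d, fun x => by simp [sh]; ring⟩

/-- A list of packed columns, shifted by `o`, and its quadratic form. -/
def RepM (bd o : ℤ) : List ℕ → ((ℕ → ℝ) → ℝ) → Prop
  | [], Q => ∀ x, Q x = 0
  | h :: t, Q => ∃ G Q', RepC bd (h - o) G ∧ RepM bd o t Q' ∧ ∀ x, Q x = G x + Q' (sh x)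

theorem RepM.mono {b b' o : ℤ} {l : List ℕ} {Q Q' : (ℕ → ℝ) → ℝ} (h : RepM b o l Q) (hb : b ≤ b')
    (hQ : ∀ x, Q' x = Q x) : RepM b' o l Q' := by
  induction l generalizing Q Q' with
  | nil => exact fun x => (hQ x).trans (h x)
  | cons a t ih =>
    obtain ⟨G, Q'', h1, h2, h3⟩ := h
    exact ⟨G, Q'', h1.mono hb, ih h2 fun _ => rfl, fun x => (hQ x).trans (h3 x)⟩

theorem RepM.replicate (o n : ℕ) : RepM 0 o (List.replicate n o) fun _ => 0 := by
  induction n with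
  | zero => exact fun _ => rfl
  | succ n ih => exact ⟨_, _, (RepC.zero le_rfl).of_eq (by simp) fun _ => rfl, ih, by simp⟩

/-- The property `P` holds on a subspace of codimension at most `N` of every subspace. -/
def Good {V : Type} [AddCommGroup V] [Module ℝ V] (N : ℕ) (P : V → Prop) : Prop :=
  ∀ U : Submodule ℝ V, ∃ U' ≤ U, Module.finrank ℝ U ≤ Module.finrank ℝ U' + N ∧ ∀ c ∈ U', P c

section

variable {V : Type} [AddCommGroup V] [Module ℝ V]

theorem Good.mono {N : ℕ} {P R : V → Prop} (h : Good N P) (hP : ∀ c, P c → R c) : Good N R :=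
  fun U => let ⟨U', h1, h2, h3⟩ := h U; ⟨U', h1, h2, fun c hc => hP c (h3 c hc)⟩

theorem Good.of_forall (N : ℕ) {P : V → Prop} (h : ∀ c, P c) : Good N P :=
  fun U => ⟨U, le_rfl, by omega, fun c _ => h c⟩

theorem Good.and {N M : ℕ} {P R : V → Prop} (h : Good N P) (h' : Good M R) :
    Good (N + M) fun c => P c ∧ R c := by
  intro U
  obtain ⟨U', h1, h2, h3⟩ := h U
  obtain ⟨U'', h4, h5, h6⟩ := h' U'
  exact ⟨U'', h4.trans h1, by omega, fun c hc => ⟨h3 c (h4 hc), h6 c hc⟩⟩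

theorem Good.ker [FiniteDimensional ℝ V] {φ : V → ℝ} (h : IsLinearMap ℝ φ) :
    Good 1 fun c => φ c = 0 := by
  intro U
  let ψ := (h.mk' φ).domRestrict U
  refine ⟨(LinearMap.ker ψ).map U.subtype, Submodule.map_subtype_le _ _, ?_, ?_⟩
  · rw [Submodule.finrank_map_subtype_eq, ← ψ.finrank_range_add_finrank_ker]
    have := (LinearMap.range ψ).finrank_le
    rw [Module.finrank_self] at this
    omega
  · rintro _ ⟨c, hc, rfl⟩
    exact hc

end

/-- The sum of the first squares. -/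
def nsq (n : ℕ) (x : ℕ → ℝ) : ℝ := ∑ i ∈ range n, x i ^ 2

theorem nsq_succ (n : ℕ) (x : ℕ → ℝ) : nsq (n + 1) x = x 0 ^ 2 + nsq n (sh x) := by
  simp [nsq, sum_range_succ', sh, add_comm]

theorem nsq_nonneg (n : ℕ) (x : ℕ → ℝ) : 0 ≤ nsq n x := sum_nonneg fun _ _ => sq_nonneg _

end Pool.Agent.MP_6b3e96_gt.H16
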