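import Pool.Agent.MP_6b3e96_gt.H16.Chk
import Pool.Agent.MP_6b3e96_gt.H16.Rep

/-!
Soundness of the elimination.
-/

noncomputable section

namespace Pool.Agent.MP_6b3e96_gt.H16

/-- The base as a natural number. -/
def bN : ℕ := 324518553658426850239945032921935
/-- Half of the base as a natural number. -/
def hN : ℕ := 162259276829213425119972516460967
/-- The scale of the multipliers. -/
def sN : ℕ := 290000017
/-- The bound for the pivots. -/
def dM : ℕ := 36000000
/-- The bound for the multipliers. -/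
def lM : ℕ := 92800005440
/-- The growth of the entries in one step. -/
def kZ : ℤ := 310026276347905065369600000000
/-- The bound for the rounding errors. -/
def bt : ℤ := 5220000306000001
/-- The shift of the diagonal. -/
def dl : ℕ := 2691200315520009248

theorem bN_eq : (bN : ℤ) = bZ := by norm_num [bN, bZ]
theorem hN_eq : (hN : ℤ) = hZ := by norm_num [hN, hZ]
theorem kZ_eq : kZ = dM * lM * lM := by norm_num [kZ, dM, lM]
theorem bt_eq : (dM * sN : ℤ) ≤ 2 * bt := by norm_num [bt, dM, sN]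
theorem lM_le : (lM : ℤ) ≤ bZ := by norm_num [lM, bZ]
theorem kZ_pos : 0 ≤ kZ := by norm_num [kZ]
theorem bt_pos : 0 ≤ bt := by norm_num [bt]
theorem sN_pos : 1 ≤ sN := by norm_num [sN]

theorem frc_eq (x : ℕ) (k : ℕ → Bool) : frc x k = k x := rfl

theorem brec {A B b : Bool} (H : Bool.rec (motive := fun _ => Bool) A B b = true) :
    (b = false ∧ A = true) ∨ (b = true ∧ B = true) := by
  cases b
  · exact .inl ⟨rfl, H⟩
  · exact .inr ⟨rfl, H⟩

theorem nrec {B : ℕ → Bool} {n : ℕ}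
    (H : Nat.rec (motive := fun _ => Bool) false (fun m _ => B m) n = true) :
    ∃ m, n = m + 1 ∧ B m = true := by
  cases n
  · exact absurd H Bool.false_ne_true
  · exact ⟨_, rfl, H⟩

/-- The first offset. -/
def hd (os : List ℕ) : ℤ := (os.headD 0 : ℕ)

/-- Chains of offsets. -/
def Ch : List ℕ → Prop
  | [] => True
  | o :: os => (o : ℤ) = hZ + bZ * hd os ∧ Ch os

theorem offs_spec (n : ℕ) :
    ∃ o os, Ch (o :: os) ∧ ∀ k : ℕ → List ℕ → Bool, offs n k = k o os := by
  induction n with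
  | zero => exact ⟨hN, [], ⟨by simp [hd, hN_eq], trivial⟩, fun _ => rfl⟩
  | succ n ih =>
    obtain ⟨o, os, h1, h2⟩ := ih
    refine ⟨hN + bN * o, o :: os, ⟨by simp [hd, hN_eq, bN_eq], h1⟩, fun k => ?_⟩
    exact h2 _

theorem dig {c o : ℕ} {w a c' : ℤ} (ho : (o : ℤ) = hZ + bZ * w) (h : (c : ℤ) - o = a + bZ * c')
    (ha : |a| ≤ hZ) : ((c % bN : ℕ) : ℤ) - hZ = a ∧ ((c / bN : ℕ) : ℤ) - w = c' := by
  have h1 : ((c % bN : ℕ) : ℤ) + bZ * (c / bN : ℕ) = c := by
    rw [← bN_eq]; exact_mod_cast Nat.mod_add_div c bN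
  have h2 : ((c % bN : ℕ) : ℤ) < bZ := by
    rw [← bN_eq]; exact_mod_cast Nat.mod_lt c (by norm_num [bN])
  have h3 : (0 : ℤ) ≤ (c % bN : ℕ) := Int.natCast_nonneg _
  have hb := bh
  exact digit_eq (by linarith) (abs_le.2 ⟨by linarith, by linarith⟩) ha

/-- The update `u` subtracts `ε` times its second argument. -/
def IsU (ε : ℤ) (u : U) : Prop :=
  ∀ h x a k σ t, u h x a k σ t = true → ∃ h' : ℕ, (h' : ℤ) = h - ε * x ∧ k σ a (h' :: t) = true

theorem isU_S : IsU 1 uS := by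
  intro h x a k σ t H
  unfold uS at H
  cases hb : Nat.ble x h <;> rw [hb] at H
  · exact absurd H Bool.false_ne_true
  · have := Nat.le_of_ble_eq_true hb
    exact ⟨h - x, by omega, H⟩

theorem isU_A : IsU (-1) uA := fun h x _ _ _ _ H => ⟨h + x, by push_cast; ring, H⟩

/-- The sign. -/
def sg (σ : Bool) : ℤ := if σ then -1 else 1

/-- The result of the elimination. -/
def Res (ε : ℤ) (D e : ℕ) (bd o : ℤ) (n : ℕ) (f Q : (ℕ → ℝ) → ℝ) (p : ℤ) (t : List ℕ) : Prop :=
  ∃ g, t.length = n ∧ Rep lM p g ∧ RepM (bd + kZ) o t (fun x => Q x - ε * D * g x ^ 2) ∧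
    ∀ x (y : ℝ), -bt * (n * y ^ 2 + nsq n x) ≤ 2 * y * (f x - e * g x)

theorem Res.step {ε : ℤ} (hε : |ε| = 1) {D e : ℕ} (hD : D ≤ dM) {bd o : ℤ} {n h h' : ℕ}
    {f f' Q Q' G : (ℕ → ℝ) → ℝ} {p r l : ℤ} {t : List ℕ} (H : Res ε D e bd o n f' Q' p t)
    (hG : RepC bd (h - o) G) (hQ : ∀ x, Q x = G x + Q' (sh x)) (hf : ∀ x, f x = r * x 0 + f' (sh x))
    (hl : |l| ≤ lM) (hr : |r - e * l| ≤ bt) (hh : (h' : ℤ) = h - ε * D * l * (l + bZ * p)) :
    Res ε D e bd o (n + 1) f Q (l + bZ * p) (h' :: t) := by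
  obtain ⟨g, h1, h2, h3, h4⟩ := H
  have hm : |-(ε * D * l)| * lM ≤ kZ := by
    rw [abs_neg, abs_mul, abs_mul, hε, one_mul, kZ_eq, Nat.abs_cast]
    gcongr
  have hC : RepC kZ (-(ε * D * l) * (l + bZ * p))
      fun x => -(ε * D * l) * (l * x 0 ^ 2 + 2 * x 0 * g (sh x)) := by
    refine ⟨-(ε * D * l) * l, _, _, by ring, ?_, (h2.smul (-(ε * D * l))).mono hm, fun x => ?_⟩
    · rw [abs_mul]
      exact le_trans (by gcongr) hm
    · push_cast; ring
  refine ⟨_, by simp [h1], .cons l p g hl h2, ⟨_, _, (hG.add hC).of_eq (by rw [hh]; ring)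
    fun _ => rfl, h3, fun x => ?_⟩, fun x y => ?_⟩
  · simp only [hQ]; ring
  · have h5 := h4 (sh x) y
    have h6 : |(r : ℝ) - e * l| ≤ bt := by exact_mod_cast hr
    rw [abs_le] at h6
    rw [hf, nsq_succ]
    push_cast
    nlinarith [mul_nonneg (sub_nonneg.2 h6.1) (sq_nonneg (y + x 0)),
      mul_nonneg (sub_nonneg.2 h6.2) (sq_nonneg (y - x 0))]

theorem go_spec {u v : U} {D e e2 o : ℕ} {os cols : List ℕ} {c : ℕ} {s : Bool} {k : K}
    (H : go u v D e e2 (o :: os) cols c s k = true) : (c = o ∧ k s 0 cols = true) ∨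
      ∃ h t, cols = h :: t ∧ r2 u v D (go u v D e e2 os t (c / bN)) h s k (c % bN)
        ((c % bN - hN + (hN - c % bN) + e2) / e) = true := by
  cases cols with
  | nil =>
    change Bool.rec (motive := fun _ => Bool) false (k s 0 []) (Nat.beq c o) = true at H
    cases hb : Nat.beq c o <;> rw [hb] at H
    · exact absurd H Bool.false_ne_true
    · exact .inl ⟨Nat.eq_of_beq_eq_true hb, H⟩
  | cons h t =>
    change Bool.rec (motive := fun _ => Bool) (r2 u v D (go u v D e e2 os t (c / bN)) h s k (c % bN)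
      ((c % bN - hN + (hN - c % bN) + e2) / e)) (k s 0 (h :: t)) (Nat.beq c o) = true at H
    rcases brec H with ⟨-, H'⟩ | ⟨hb, H'⟩
    · exact .inr ⟨h, t, rfl, H'⟩
    · exact .inl ⟨Nat.eq_of_beq_eq_true hb, H'⟩

theorem r2_spec {u v : U} {D : ℕ} {ih : Bool → K → Bool} {h : ℕ} {s : Bool} {k : K} {d l : ℕ}
    (H : r2 u v D ih h s k d l = true) : (l = 0 ∧ ih s (c0 h k) = true) ∨ (l ≠ 0 ∧ l ≤ lM ∧
      ((d ≤ hN ∧ ih true (cN u v h (D * l) l k) = true) ∨
        (¬ d ≤ hN ∧ ih false (cP u v h (D * l) l k) = true))) := by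
  change Bool.rec (motive := fun _ => Bool) (Bool.rec (motive := fun _ => Bool) false
    (Bool.rec (motive := fun _ => Bool) (ih false (cP u v h (D * l) l k))
      (ih true (cN u v h (D * l) l k)) (Nat.ble d hN)) (Nat.ble l lM)) (ih s (c0 h k))
      (Nat.beq l 0) = true at H
  cases h0 : Nat.beq l 0 <;> rw [h0] at H
  · cases h1 : Nat.ble l lM <;> rw [h1] at H
    · exact absurd H Bool.false_ne_true
    · refine .inr ⟨Nat.ne_of_beq_eq_false h0, Nat.le_of_ble_eq_true h1, ?_⟩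
      cases h2 : Nat.ble d hN <;> rw [h2] at H
      · exact .inr ⟨fun h => by simp [Nat.ble_eq_true_of_le h] at h2, H⟩
      · exact .inl ⟨Nat.le_of_ble_eq_true h2, H⟩
  · exact .inl ⟨Nat.eq_of_beq_eq_true h0, H⟩

theorem cP_f (u v : U) (h m l : ℕ) (k : K) (a : ℕ) (t : List ℕ) :
    cP u v h m l k false a t = u h (m * (bN * a + l)) (bN * a + l) k false t := rfl
theorem cP_t (u v : U) (h m l : ℕ) (k : K) (a : ℕ) (t : List ℕ) :
    cP u v h m l k true a t = v h (m * (bN * a - l)) (bN * a - l) k true t := rfl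
theorem cN_f (u v : U) (h m l : ℕ) (k : K) (a : ℕ) (t : List ℕ) :
    cN u v h m l k false a t = v h (m * (bN * a - l)) (bN * a - l) k false t := rfl
theorem cN_t (u v : U) (h m l : ℕ) (k : K) (a : ℕ) (t : List ℕ) :
    cN u v h m l k true a t = u h (m * (bN * a + l)) (bN * a + l) k true t := rfl
theorem c0_eq (h : ℕ) (k : K) (σ : Bool) (a : ℕ) (t : List ℕ) :
    c0 h k σ a t = k σ (bN * a) (h :: t) := rfl

theorem Res.of_eq {ε : ℤ} {D e : ℕ} {bd o : ℤ} {n : ℕ} {f Q : (ℕ → ℝ) → ℝ} {p p' : ℤ} {t : List ℕ}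
    (H : Res ε D e bd o n f Q p t) (h : p' = p) : Res ε D e bd o n f Q p' t := h ▸ H

theorem round_le {ρ e : ℕ} (he : 1 ≤ e) (he' : (e : ℤ) ≤ 2 * bt) :
    |(ρ : ℤ) - e * ((ρ + e / 2) / e : ℕ)| ≤ bt := by
  have h1 := Nat.mod_add_div (ρ + e / 2) e
  have h2 := Nat.mod_lt (ρ + e / 2) he
  generalize (ρ + e / 2) / e = q at *
  generalize (ρ + e / 2) % e = m at *
  have h3 : (e : ℤ) * q = (e * q : ℕ) := by push_cast; ring
  rw [h3, abs_le]
  generalize e * q = z at *
  omega

theorem go_sound {ε : ℤ} (hε : |ε| = 1) {u v : U} (hu : IsU ε u) (hv : IsU (-ε) v) {D e : ℕ}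
    (hD : D ≤ dM) (he : 1 ≤ e) (he' : (e : ℤ) ≤ 2 * bt) {bd o : ℤ} (hbd : 0 ≤ bd) (hbd' : bd ≤ hZ)
    (os : List ℕ) (hos : Ch os) (cols : List ℕ) (c : ℕ) (s : Bool) (k : K) (f Q : (ℕ → ℝ) → ℝ)
    (hf : Rep bd (c - hd os) f) (hQ : RepM bd o cols Q)
    (H : go u v D e (e / 2) os cols c s k = true) :
    ∃ σ a t, k σ a t = true ∧ (a = 0 → σ = s) ∧ Res ε D e bd o cols.length f Q (sg σ * a) t := by
  induction os generalizing cols c s k f Q with
  | nil => exact absurd H Bool.false_ne_true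
  | cons o' os ih =>
    rcases go_spec H with ⟨hc, H'⟩ | ⟨h, t, rfl, H'⟩
    · refine ⟨s, 0, cols, H', fun _ => rfl, fun _ => 0, rfl, Rep.nil.of_eq (by simp) fun _ => rfl,
        hQ.mono (by linarith [kZ_pos]) (by simp), fun x y => ?_⟩
      rw [hf.zero (by simp [hd, hc]) hbd']
      have h1 : (0 : ℝ) ≤ bt := by exact_mod_cast bt_pos
      have h2 := nsq_nonneg cols.length x
      have : 0 ≤ (bt : ℝ) * (cols.length * y ^ 2 + nsq cols.length x) := by positivity
      linarith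
    obtain ⟨r, c', f', hr, hf', hc, hff⟩ := hf.dest hbd
    obtain ⟨G, Q', hG, hQ', hQQ⟩ := hQ
    obtain ⟨hd1, hd2⟩ := dig hos.1 hc (hr.trans hbd')
    have hρ : ((c % bN - hN + (hN - c % bN) : ℕ) : ℤ) = |r| := by
      rw [← hd1, ← hN_eq]
      generalize c % bN = d
      rcases abs_cases ((d : ℤ) - hN) with h1 | h1 <;> omega
    have hrd := round_le (ρ := c % bN - hN + (hN - c % bN)) he he'
    rw [hρ] at hrd
    clear H
    have H := r2_spec H'
    clear H'
    generalize (c % bN - hN + (hN - c % bN) + e / 2) / e = l at H hrd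
    rw [← hd2] at hf'
    have IH := fun s k => ih hos.2 t (c / bN) s k f' Q' hf' hQ'
    have hB := bN_eq
    have key : ∀ {a : ℕ}, l ≤ lM → a ≠ 0 →
        bN * a - l ≠ 0 ∧ ((bN * a - l : ℕ) : ℤ) = bZ * a - l := by
      intro a hl ha
      have h5 : bN * 1 ≤ bN * a := Nat.mul_le_mul_left _ (by omega)
      have h7 : lM < bN := by norm_num [lM, bN]
      have h6 : l ≤ bN * a := by omega
      rw [Nat.cast_sub h6]
      exact ⟨by omega, by push_cast; rw [hB]⟩
    rcases H with ⟨hl, H⟩ | ⟨hl0, hl1, ⟨hp, H⟩ | ⟨hp, H⟩⟩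
    · obtain ⟨σ, a, t', h1, h2, h3⟩ := IH _ _ H
      rw [c0_eq] at h1
      refine ⟨σ, bN * a, h :: t', h1, fun h4 => h2 ((mul_eq_zero.1 h4).resolve_left
        (by norm_num [bN])), (h3.step hε hD (l := 0) (h' := h) hG hQQ hff (by simp)
        (by simpa [hl] using hrd) (by simp)).of_eq ?_⟩
      push_cast; rw [hB]; ring
    · have hr0 : |r| = -r := abs_of_nonpos (by rw [← hd1, ← hN_eq]; omega)
      have hrd' : |r - e * (-l : ℤ)| ≤ bt := by
        rw [← abs_neg]; convert hrd using 2; rw [hr0]; ring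
      obtain ⟨σ, a, t', h3, h4, h5⟩ := IH _ _ H
      cases σ
      · have ha : a ≠ 0 := fun h => by simpa using h4 h
        rw [cN_f] at h3
        obtain ⟨h', h6, h7⟩ := hv _ _ _ _ _ _ h3
        refine ⟨false, bN * a - l, h' :: t', h7, fun h => absurd h (key hl1 ha).1,
          (h5.step hε hD (l := -l) (h' := h') hG hQQ hff (by simpa) hrd' ?_).of_eq ?_⟩
        · rw [h6, Nat.cast_mul, (key hl1 ha).2]; simp only [sg]; push_cast; ring
        · rw [(key hl1 ha).2]; simp only [sg]; push_cast; ring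
      · rw [cN_t] at h3
        obtain ⟨h', h6, h7⟩ := hu _ _ _ _ _ _ h3
        refine ⟨true, bN * a + l, h' :: t', h7, fun h => by omega,
          (h5.step hε hD (l := -l) (h' := h') hG hQQ hff (by simpa) hrd' ?_).of_eq ?_⟩
        · rw [h6]; push_cast; rw [hB]; simp only [sg]; push_cast; ring
        · push_cast; rw [hB]; simp only [sg]; push_cast; ring
    · have hr0 : |r| = r := abs_of_nonneg (by rw [← hd1, ← hN_eq]; omega)
      rw [hr0] at hrd
      obtain ⟨σ, a, t', h3, h4, h5⟩ := IH _ _ H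
      cases σ
      · rw [cP_f] at h3
        obtain ⟨h', h6, h7⟩ := hu _ _ _ _ _ _ h3
        refine ⟨false, bN * a + l, h' :: t', h7, fun h => by omega,
          (h5.step hε hD (l := l) (h' := h') hG hQQ hff (by simpa) hrd ?_).of_eq ?_⟩
        · rw [h6]; push_cast; rw [hB]; simp only [sg]; push_cast; ring
        · push_cast; rw [hB]; simp only [sg]; push_cast; ring
      · have ha : a ≠ 0 := fun h => by simpa using h4 h
        rw [cP_t] at h3
        obtain ⟨h', h6, h7⟩ := hv _ _ _ _ _ _ h3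
        refine ⟨true, bN * a - l, h' :: t', h7, fun h => absurd h (key hl1 ha).1,
          (h5.step hε hD (l := l) (h' := h') hG hQQ hff (by simpa) hrd ?_).of_eq ?_⟩
        · rw [h6, Nat.cast_mul, (key hl1 ha).2]; simp only [sg]; push_cast; ring
        · rw [(key hl1 ha).2]; simp only [sg]; push_cast; ring

theorem piv_sound {ε : ℤ} (hε : |ε| = 1) {u v : U} (hu : IsU ε u) (hv : IsU (-ε) v) {D : ℕ}
    {bd o : ℤ} (hbd : 0 ≤ bd) (hbd' : bd ≤ hZ) {os : List ℕ} (hos : Ch os) {t : List ℕ} {c : ℕ}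
    {k : List ℕ → Bool} {f Q : (ℕ → ℝ) → ℝ} (hf : Rep bd (c - hd os) f) (hQ : RepM bd o t Q)
    (H : piv u v os t c k D = true) :
    ∃ p t', k t' = true ∧ Res ε D (D * sN) bd o t.length f Q p t' := by
  change Bool.rec (motive := fun _ => Bool) false (Bool.rec (motive := fun _ => Bool) false
    (frc (D * sN) fun e => frc (e / 2) fun e2 => go u v D e e2 os t c false fun _ _ t' => k t')
    (Nat.ble 1 D)) (Nat.ble D dM) = true at H
  rw [frc_eq, frc_eq] at H
  generalize hA : go u v D _ _ os t c false _ = A at H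
  cases h1 : Nat.ble D dM <;> rw [h1] at H
  · exact absurd H Bool.false_ne_true
  cases h2 : Nat.ble 1 D <;> rw [h2] at H
  · exact absurd H Bool.false_ne_true
  have h3 := Nat.le_of_ble_eq_true h1
  obtain ⟨σ, a, t', h4, -, h5⟩ := go_sound hε hu hv h3
    (Nat.mul_pos (Nat.le_of_ble_eq_true h2) sN_pos) (le_trans (by push_cast; gcongr) bt_eq) hbd hbd'
    os hos t c false _ f Q hf hQ (hA.trans H)
  exact ⟨_, t', h4, h5⟩

theorem ldl_spec {os : List ℕ} {m : Bool} {ms : List Bool} {cols : List ℕ} {N : ℕ}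
    (H : ldl os (m :: ms) cols N = true) : ∃ c t, cols = c :: t ∧
      ((m = true ∧ ldl os ms t N = true) ∨
      (hN + dl ≤ c % bN ∧ piv uS uA os t (c / bN) (fun t' => ldl os ms t' N)
        ((c % bN - (hN + dl)) / (sN * sN)) = true) ∨
      (¬ hN + dl ≤ c % bN ∧ ∃ N', N = N' + 1 ∧ piv uA uS os t (c / bN) (fun t' => ldl os ms t' N')
        ((hN + dl - c % bN) / (sN * sN) + 1) = true)) := by
  cases cols with
  | nil => exact absurd H Bool.false_ne_true
  | cons c t =>
    refine ⟨c, t, rfl, ?_⟩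
    cases m with
    | true => exact .inl ⟨rfl, H⟩
    | false =>
      right
      change frc (c % bN) (fun d => Bool.rec (motive := fun _ => Bool)
        (Nat.rec (motive := fun _ => Bool) false (fun N' _ =>
          frc ((hN + dl - d) / (sN * sN) + 1) (piv uA uS os t (c / bN) fun t' => ldl os ms t' N')) N)
        (frc ((d - (hN + dl)) / (sN * sN)) (piv uS uA os t (c / bN) fun t' => ldl os ms t' N))
        (Nat.ble (hN + dl) d)) = true at H
      rw [frc_eq] at H
      rcases brec H with ⟨h1, H'⟩ | ⟨h1, H'⟩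
      · obtain ⟨N', h2, H''⟩ := nrec H'
        rw [frc_eq] at H''
        exact .inr ⟨fun h => Bool.false_ne_true (h1.symm.trans (Nat.ble_eq_true_of_le h)),
          N', h2, H''⟩
      · rw [frc_eq] at H'
        exact .inl ⟨Nat.le_of_ble_eq_true h1, H'⟩

theorem ldl_sound {V : Type} [AddCommGroup V] [Module ℝ V] [FiniteDimensional ℝ V] {o : ℕ}
    {os : List ℕ} (hos : Ch (o :: os)) (mask : List Bool) (cols : List ℕ) (N : ℕ) (bd : ℤ)
    (Q : (ℕ → ℝ) → ℝ) (X : V → ℕ → ℝ) (hX : ∀ i, IsLinearMap ℝ fun v => X v i)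
    (hm : ∀ i, mask.getD i false = true → ∀ v, X v i = 0) (hbd : 0 ≤ bd)
    (hbd' : bd + cols.length * kZ ≤ hZ) (hQ : RepM bd o cols Q) (H : ldl os mask cols N = true) :
    Good N fun v => (dl - bt * cols.length) * nsq cols.length (X v) ≤ Q (X v) := by
  induction mask generalizing cols N bd Q X with
  | nil =>
    cases cols with
    | nil => exact .of_forall _ fun v => by simp [hQ (X v), nsq]
    | cons _ _ => exact absurd H Bool.false_ne_true
  | cons m ms ih =>
    obtain ⟨c, t, rfl, H'⟩ := ldl_spec H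
    clear H
    obtain ⟨G, Q', ⟨a, c', f, hc, ha, hf, hG⟩, hQ', hQQ⟩ := hQ
    have hk := kZ_pos
    have hb : (0 : ℝ) ≤ bt := by exact_mod_cast bt_pos
    rw [List.length_cons] at hbd' ⊢
    push_cast at hbd' ⊢
    have hk' : 0 ≤ (t.length : ℤ) * kZ := by positivity
    have hbh : bd ≤ hZ := by nlinarith
    obtain ⟨hd1, hd2⟩ := dig hos.1 hc (ha.trans hbh)
    rw [← hd2] at hf
    have IH := fun cols N bd Q => ih cols N bd Q (fun v => sh (X v)) (fun i => hX (i + 1))
      fun i hi v => hm (i + 1) hi v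
    have main : ∀ {ε : ℤ} {D N' : ℕ} {p : ℤ} {t' : List ℕ}, ε * ε = 1 →
        ε * D * (sN * sN) ≤ a - dl → ldl os ms t' N' = true →
        Res ε D (D * sN) bd o t.length f Q' p t' → ∃ g, Rep lM p g ∧ Good N' fun v =>
          0 ≤ (ε : ℝ) * D * (ε * sN * X v 0 + g (sh (X v))) ^ 2 →
          (dl - bt * (t.length + 1)) * nsq (t.length + 1) (X v) ≤ Q (X v) := by
      rintro ε D N' p t' hε hD H ⟨g, h1, h2, h3, h4⟩
      refine ⟨g, h2, (IH t' N' _ _ (by linarith) (by rw [h1]; linarith) h3 H).mono fun v h5 h6 => ?_⟩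
      have h7 := h4 (sh (X v)) (X v 0)
      have h8 : (ε : ℝ) * D * (sN * sN) ≤ a - dl := by exact_mod_cast hD
      have h9 : (ε : ℝ) * ε = 1 := by exact_mod_cast hε
      rw [h1] at h5
      rw [hQQ, hG, nsq_succ]
      push_cast at h7
      have h10 : (ε : ℝ) * D * (ε * sN * X v 0 + g (sh (X v))) ^ 2 =
          ε * D * (sN * sN) * X v 0 ^ 2 + 2 * (D * sN) * X v 0 * g (sh (X v)) +
            ε * D * g (sh (X v)) ^ 2 := by
        linear_combination (ε * D * sN ^ 2 * X v 0 ^ 2 + 2 * D * sN * X v 0 * g (sh (X v))) * h9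
      nlinarith [mul_nonneg (sub_nonneg.2 h8) (sq_nonneg (X v 0)), mul_nonneg hb (sq_nonneg (X v 0))]
    have hs : 0 < sN * sN := Nat.mul_pos sN_pos sN_pos
    have hH := hN_eq
    rcases H' with ⟨rfl, H⟩ | ⟨h1, H⟩ | ⟨h1, N', rfl, H⟩
    · refine (IH t N bd Q' hbd (by linarith) hQ' H).mono fun v h => ?_
      rw [hQQ, hG, nsq_succ, hm 0 rfl v]
      nlinarith [mul_nonneg hb (nsq_nonneg t.length (sh (X v)))]
    · obtain ⟨p, t', h2, h3⟩ := piv_sound (ε := 1) (by simp) isU_S isU_A hbd hbh hos.2 hf hQ' H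
      obtain ⟨g, -, h4⟩ := main (by simp) (by
        have := Nat.div_mul_le_self (c % bN - (hN + dl)) (sN * sN)
        generalize (c % bN - (hN + dl)) / (sN * sN) = q at this ⊢
        generalize c % bN = d at this h1 hd1
        zify [h1] at this
        linarith) h2 h3
      exact h4.mono fun v h => h (by positivity)
    · obtain ⟨p, t', h2, h3⟩ := piv_sound (ε := -1) (by simp) isU_A (by simpa using isU_S) hbd hbh
        hos.2 hf hQ' H
      obtain ⟨g, h5, h4⟩ := main (by simp) (by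
        have := Nat.lt_div_mul_add (a := hN + dl - c % bN) hs
        generalize (hN + dl - c % bN) / (sN * sN) = q at this ⊢
        generalize c % bN = d at this h1 hd1
        zify [(not_le.1 h1).le] at this
        push_cast
        linarith) h2 h3
      have h6 : IsLinearMap ℝ fun v => ((-1 : ℤ) : ℝ) * sN * X v 0 + g (sh (X v)) := by
        have h7 := h5.lin (fun v => sh (X v)) fun i => hX (i + 1)
        refine ⟨fun v w => ?_, fun s v => ?_⟩
        · simp only [(hX 0).1, h7.1]; ring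
        · simp only [(hX 0).2, h7.2, smul_eq_mul]; ring
      exact (h4.and (.ker h6)).mono fun v h => h.1 (by rw [h.2]; simp)

end Pool.Agent.MP_6b3e96_gt.H16
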